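import Pool.Agent.MTF.StmtsB
import Pool.Agent.Helper97_MTG.Ass
import Pool.Agent.Helper34_MTA.Diag
import Pool.Agent.MTL.All

/-! MTF, module FIN: the final theorem from the Hodge side. -/

set_option autoImplicit false

namespace Pool.Agent.MTF.H20

open Matrix Polynomial Pool.Agent.MT100 Pool.Agent.MT100G Pool.Agent.MT100A Pool.Agent.MT100D
  Pool.Agent.MTF Pool.Agent.Helper78_MT Pool.Agent.MTL

universe u

variable {d : Type} [Fintype d] [DecidableEq d]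

/-! ### Scaling of the rational structure -/

theorem per_smul (F : Family d) (s : ℂ) (P : Matrix d d ℂ) (w : ℂ) (a : d) :
    F.per (s • P) w a = s • F.per P w a := by
  unfold Family.per
  rw [smul_mulVec]

theorem hasFil_smul (F : Family d) {s : ℂ} (hs : s ≠ 0) (lev : d → ℕ) (P : Matrix d d ℂ) (w : ℂ)
    (V : ℕ → Submodule ℂ (d → ℂ)) (h : F.HasFil lev P w V) : F.HasFil lev (s • P) w V := by
  intro p
  rw [h p]
  apply le_antisymm
  · apply Submodule.span_le.2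
    rintro y ⟨a, ha, rfl⟩
    have h1 : F.per P w a = s⁻¹ • F.per (s • P) w a := by
      rw [per_smul, smul_smul, inv_mul_cancel₀ hs, one_smul]
    rw [h1]
    exact Submodule.smul_mem _ _ (Submodule.subset_span ⟨a, ha, rfl⟩)
  · apply Submodule.span_le.2
    rintro y ⟨a, ha, rfl⟩
    rw [per_smul]
    exact Submodule.smul_mem _ _ (Submodule.subset_span ⟨a, ha, rfl⟩)

theorem isUnit_smul {s : ℂ} (hs : s ≠ 0) {P : Matrix d d ℂ} (hP : IsUnit P.det) :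
    IsUnit (s • P).det := by
  rw [det_smul]
  exact (isUnit_iff_ne_zero.2 (pow_ne_zero _ hs)).mul hP

theorem inv_smul_mat {s : ℂ} (hs : s ≠ 0) {P : Matrix d d ℂ} (hP : IsUnit P.det) :
    (s • P)⁻¹ = s⁻¹ • P⁻¹ := by
  apply Matrix.inv_eq_right_inv
  rw [smul_mul_smul_comm, mul_inv_cancel₀ hs, mul_nonsing_inv P hP, one_smul]

theorem Mo_smul (F : Family d) {s : ℂ} (hs : s ≠ 0) {P : Matrix d d ℂ} (hP : IsUnit P.det) :
    F.Mo (s • P) = F.Mo P := by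
  have h1 : ∀ g : Matrix d d ℂ, (s • P) * gᵀ * (s • P)⁻¹ = P * gᵀ * P⁻¹ := by
    intro g
    rw [inv_smul_mat hs hP, smul_mul_assoc, smul_mul_smul_comm, mul_inv_cancel₀ hs, one_smul]
  unfold Family.Mo
  simp only [h1]

theorem fibre_smul (F : Family d) {s : ℂ} (hs : s ≠ 0) (lev : d → ℕ) {P : Matrix d d ℂ}
    (hP : IsUnit P.det) (w n : ℕ) (E : Matrix d d ℚ) (V : ℕ → Submodule ℂ (d → ℂ))
    (h : F.Fibre lev P w n E V) : F.Fibre lev (s • P) w n E V := by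
  refine ⟨h.1, ?_, hasFil_smul F hs lev P n V h.2.2⟩
  have h2 := h.2.1
  unfold Family.InvM at h2 ⊢
  rw [Mo_smul F hs hP]
  exact h2

/-! ### The rank -/

theorem two_lt_card {κ a : ℕ} (lev : d → ℕ) (hκ : ∀ p, Fintype.card {a // lev a = p} ≤ κ)
    (h : a + 1 + κ < Fintype.card d) : 2 < Fintype.card d := by
  have h1 : 0 < Fintype.card d := by omega
  obtain ⟨x⟩ := Fintype.card_pos_iff.1 h1
  have h2 : 0 < Fintype.card {a // lev a = lev x} := Fintype.card_pos_iff.2 ⟨⟨x, rfl⟩⟩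
  have h3 := hκ (lev x)
  omega

/-! ### The final theorem -/

/-- FIN: for all large `n` the Mumford-Tate group of the fibre is the group of the similitudes, and the
Mumford-Tate conjecture holds for the representations with big image. -/
def FinStmt : Prop :=
  ∀ (d : Type) [Fintype d] [DecidableEq d] (F : Family d) (w : ℕ) (lev : d → ℕ)
    (P : Matrix d d ℂ) (δ κ : ℕ) (c : Fin δ → ℂ) (s : ℂ), Odd w → IsUnit P.det → s ≠ 0 →
    (∀ i j, IsAlgebraic (IntermediateField.adjoin ℚ (Set.range c)) (s * P i j)) →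
    (∀ p, Fintype.card {a // lev a = p} ≤ κ) →
    δ + (if F.N = 0 then 0 else 1) + 1 + κ < Fintype.card d →
    ∃ n0 : ℕ,
      (∀ n : ℕ, n0 ≤ n → ∀ (E : Matrix d d ℚ) (V : ℕ → Submodule ℂ (d → ℂ)),
        F.Fibre lev P w n E V → SpDense (F.Mo P) E →
        (∀ (K : Type u) [Field K] [CharZero K], mtGroup w V K = similitudes E K) ∧
        ∀ (ℓ : ℕ) [Fact ℓ.Prime] (ρn : GQ →* GL d ℚ_[ℓ]), BigMonodromy E ρn →
          ∀ (K : Type u) [Field K] [CharZero K] [Algebra ℚ_[ℓ] K],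
            monodromy ρn K = mtGroup w V K) ∧
      ∀ ρ : (ℓ : ℕ) → [Fact ℓ.Prime] → GT →* GL d ℚ_[ℓ],
        (∀ (ℓ : ℕ) [Fact ℓ.Prime], Continuous (ρ ℓ)) →
        ∃ (T : Set ℕ) (N : ℕ → ℕ), DensZero T ∧ ∀ (ℓ : ℕ) [Fact ℓ.Prime] (n : ℕ),
          n0 ≤ n → n ∉ T → N ℓ ≤ n →
          ∀ (E : Matrix d d ℚ) (V : ℕ → Submodule ℂ (d → ℂ)),
          F.Fibre lev P w n E V → SpDense (F.Mo P) E → BigMonodromy E (ρ ℓ) →
          ∀ ρn : GQ →* GL d ℚ_[ℓ], Specializes (ρ ℓ) n ρn →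
          ∀ (K : Type u) [Field K] [CharZero K] [Algebra ℚ_[ℓ] K],
            monodromy ρn K = mtGroup w V K

theorem fin_of (hM : MafStmt.{u}) : FinStmt.{u} := by
  intro d _ _ F w lev P δ κ c s hw hP hs hc hκ hlt
  obtain ⟨n0, hn0⟩ := hM d F w lev hw (s • P) (isUnit_smul hs hP) δ c hc κ hκ hlt
  have hcard : 2 < Fintype.card d := two_lt_card lev hκ hlt
  have hMT : ∀ n : ℕ, n0 ≤ n → ∀ (E : Matrix d d ℚ) (V : ℕ → Submodule ℂ (d → ℂ)),
      F.Fibre lev P w n E V → SpDense (F.Mo P) E →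
      ∀ (K : Type u) [Field K] [CharZero K], mtGroup w V K = similitudes E K := by
    intro n hn E V hF hD
    exact hn0 n hn E V (fibre_smul F hs lev hP w n E V hF) (by rw [Mo_smul F hs hP]; exact hD)
  have hbig : ∀ (E : Matrix d d ℚ) (V : ℕ → Submodule ℂ (d → ℂ)), PolHodge w E V →
      ∀ (ℓ : ℕ) [Fact ℓ.Prime] (ρn : GQ →* GL d ℚ_[ℓ]), BigMonodromy E ρn →
      ∀ (K : Type u) [Field K] [CharZero K] [Algebra ℚ_[ℓ] K],
        monodromy ρn K = similitudes E K := by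
    intro E V hV ℓ _ ρn hρ K _ _ _
    have hsym : Eᵀ = -E := by
      rw [hV.symm, hw.neg_one_pow, neg_smul, one_smul]
    exact MT100G.H97.lad'.{u, 0} d E ℚ_[ℓ] GQ ρn hsym hV.nondeg hcard hρ K
  refine ⟨n0, ?_, ?_⟩
  · intro n hn E V hF hD
    refine ⟨hMT n hn E V hF hD, ?_⟩
    intro ℓ _ ρn hρ K _ _ _
    rw [hMT n hn E V hF hD K]
    exact hbig E V hF.1 ℓ ρn hρ K
  · intro ρ hρ
    obtain ⟨T, N, hT, h3⟩ := MT100A.H34.diag_prime
      (fun ℓ n => ∀ [Fact ℓ.Prime], ∀ ρn : GQ →* GL d ℚ_[ℓ], Specializes (ρ ℓ) n ρn →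
        ∀ E : Matrix d d ℚ, BigMonodromy E (ρ ℓ) → BigMonodromy E ρn) (by
      intro ℓ hℓ
      have : Fact ℓ.Prime := ⟨hℓ⟩
      obtain ⟨T, hT, h4⟩ := specialise.{u} serAll (ρ ℓ) (hρ ℓ)
      exact ⟨T, hT, fun n hn _ ρn hsp E hE => (h4 n hn ρn hsp).2.1 E hE⟩)
    refine ⟨T, N, hT, fun ℓ _ n hn hnT hN E V hF hD hρE ρn hsp K _ _ _ => ?_⟩
    rw [hMT n hn E V hF hD K]
    exact hbig E V hF.1 ℓ ρn (h3 ℓ Fact.out n hnT hN ρn hsp E hρE) K

end Pool.Agent.MTF.H20
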