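import Pool.Agent.Helper20_MTF.Hls
import Pool.Agent.Helper20_MTF.Fin
import Pool.Agent.Helper77_MTF.Per
import Pool.Agent.Helper74_MTF.Cor
import Pool.Agent.Helper74_MTF.Trd
import Pool.Agent.Helper74_MTF.Crd
import Pool.Agent.Helper74_MTF.Ger5
import Pool.Agent.Helper90_MTF.Lag3
import Pool.Agent.Helper90_MTF.Num
import Pool.Agent.Helper90_MTF.Spn
import Pool.Agent.Helper10_MTF.Fld
import Pool.Agent.Helper69_MTF.Dex
import Pool.Agent.Helper24_MTF.Irr
import Pool.Agent.Helper3_MTF.Spl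
import Pool.Agent.Helper17_MTF.Rk2
import Pool.Agent.Helper98_MTF.MAF
import Pool.Agent.Helper32_MTF.Cdl
import Pool.Agent.Helper32_MTF.Nip
import Pool.Agent.Helper76_MTF.Lvd
import Pool.Agent.Helper42_MTF.Gsp
import Pool.Agent.Helper97_MTD.Ass
import Pool.Agent.Helper64_MTD.Vag

/-! MTF, module FIN: assembly. -/

set_option autoImplicit false

namespace Pool.Agent.MTF.H20

open Pool.Agent.MTF

universe u

theorem cor' (hT : TrdStmt) : CorStmt := H74.cor H69.dex hT H10.fld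

theorem cod' (hT : TrdStmt) : CodStmt :=
  H74.cod (cor' hT) (H77.per MT100D.H97.nma' MT100D.H64.vagD) H32.nip MT100D.H64.vagD MT100D.H97.bas

theorem cdl' (hC : CrdStmt) : CdlStmt :=
  H32.cdl hC H17.rk2 H24.irr (H3.spl H90.num) H90.lag

theorem maf' (hT : TrdStmt) (hC : CrdStmt) : MafStmt.{u} :=
  H98.maf (cod' hT) (cdl' hC) hls H76.lvd H42.gsp.{u} H90.spn

theorem fin' (hT : TrdStmt) (hC : CrdStmt) : FinStmt.{u} := fin_of (maf' hT hC)

/-- the final theorem -/
theorem finU : FinStmt.{u} := fin' H74.trd H74.crd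

end Pool.Agent.MTF.H20
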