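import Pool.Agent.MTF.StmtsB
import Pool.Agent.Helper46_MTG.Stab
import Pool.Agent.Helper64_MTA.Cen

/-! MTF, module HLS: the Lie algebra of a group containing the Deligne torus. -/

set_option autoImplicit false

namespace Pool.Agent.MTF.H20

open Matrix Polynomial Pool.Agent.MT100 Pool.Agent.MTF Pool.Agent.Helper78_MT
  Pool.Agent.Helper46_MT Pool.Agent.MT100G.H46 Pool.Agent.MT100A.H64

theorem hls : HlsStmt := by
  intro d _ _ w E V hw hV I hG hI
  obtain ⟨π, hπ, h1, h2, h3⟩ := proj_of hV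
  have hI' : ∀ z : ℂ, z ≠ 0 → hz w π z ∈ zeros I ℂ := fun z hz0 => hI (hz_torus hπ h2 hz0)
  have hEs : Eᵀ = -E := by
    have := hV.symm
    rwa [Odd.neg_one_pow hw, neg_one_smul] at this
  refine ⟨hw, hV.top, hV.indep, hV.span, hV.conj, skew_map hEs, ?_, hV.orth, hV.pos, ?_, ?_, ?_, ?_⟩
  · intro i j
    rw [Matrix.map_apply]
    change starRingEnd ℂ (algebraMap ℚ ℂ (E i j)) = _
    simp
  · intro X hX Y hY
    exact Ul_br hX hY
  · intro X hX
    exact Ul_star hX
  · intro X hX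
    exact hX.2
  · refine ⟨Phi' w π, Phi'_mem hπ hw.pos hG hI', ?_⟩
    intro p x hx
    by_cases hp : p ≤ w
    · exact Phi'_piece hπ h2 hp hx
    · rw [hV.top p (by omega), Submodule.mem_bot] at hx
      rw [hx, mulVec_zero, smul_zero]

end Pool.Agent.MTF.H20
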