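import Pool.Agent.MTF.StmtsB
import Pool.Agent.Helper78_MTG.ExNva
import Pool.Agent.Helper97_MTG.Ass

/-! MTF, module FIN: the theorem is not empty. -/

set_option autoImplicit false

namespace Pool.Agent.MTF.H20

open Matrix Polynomial Pool.Agent.MT100 Pool.Agent.MT100G Pool.Agent.MT100A Pool.Agent.MT100D
  Pool.Agent.MTF Pool.Agent.Helper78_MT

variable {d : Type} [Fintype d] [DecidableEq d]

/-! ### Families with unipotent monodromy at infinity -/

theorem AA_zero (N : Matrix d d ℤ) : AA N (fun _ => 0) = N.map (fun x => (x : ℚ)) := by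
  unfold AA
  have : (diagonal fun _ : d => (0 : ℚ)) = 0 := diagonal_zero
  rw [this, add_zero]

theorem ed_zero (l : ℂ) : ed (fun _ : d => (0 : ℚ)) l = 1 := by
  unfold ed
  simp

theorem YD_zero (H : Matrix d d (PowerSeries ℚ)) (N : Matrix d d ℤ) (w : ℂ) :
    YD H N (fun _ => 0) w = YH H N w := by
  unfold YD
  rw [ed_zero, mul_one]

/-- a family with unipotent monodromy at infinity is a family -/
noncomputable def famF (F : Fam d) : Family d where
  H := F.H
  K := F.K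
  N := F.N
  δ := fun _ => 0
  q := F.q
  B := F.B
  sys :=
    { inv := F.sys.inv
      nil := F.sys.nil
      com := fun _ _ _ => rfl
      q0 := F.sys.q0
      ode := by
        rw [F.sys.ode, AA_zero]
        congr 3
        ext i j
        simp
      gH := F.sys.gH
      gK := F.sys.gK }

theorem famF_Y (F : Fam d) (w : ℂ) : (famF F).Y w = YH F.H F.N w := YD_zero F.H F.N w

theorem famF_per (F : Fam d) (P : Matrix d d ℂ) (w : ℂ) (a : d) :
    (famF F).per P w a = perG F P w a := by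
  unfold Family.per perG
  rw [famF_Y]

theorem famF_mo (F : Fam d) : (famF F).mo Set.univ = mon F.H F.N F.q F.B Set.univ := by
  have h : (famF F).Y = YH F.H F.N := funext (famF_Y F)
  unfold Family.mo monY mon
  rw [h]
  rfl

theorem famF_fil (F : Fam d) (lev : d → ℕ) (P : Matrix d d ℂ) (w : ℂ)
    (V : ℕ → Submodule ℂ (d → ℂ)) (h : MT100G.HasFil F lev P w V) :
    (famF F).HasFil lev P w V := by
  intro p
  rw [h p]
  simp only [famF_per]

/-! ### The invariant form -/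

theorem famF_inv (F : Fam d) {P : Matrix d d ℂ} (hP : IsUnit P.det) {E : Matrix d d ℚ}
    (hfl : Flat F P E) : (famF F).InvM P E := by
  rintro γ ⟨g, hg, rfl⟩
  rw [famF_mo] at hg
  have hgA : g ∈ Aut F.J0 := (MT100G.H97.mon_stmt d F).1 hg
  obtain ⟨c, hc, hE⟩ := hfl
  obtain ⟨J, hJ⟩ : ∃ J, J = F.J0.map (algebraMap ℚ ℂ) := ⟨_, rfl⟩
  obtain ⟨Ji, hJi⟩ : ∃ Ji, Ji = (F.J0⁻¹).map (algebraMap ℚ ℂ) := ⟨_, rfl⟩
  have hJJ : J * Ji = 1 := by
    rw [hJ, hJi, ← Matrix.map_mul, Matrix.mul_nonsing_inv _ F.unit]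
    exact Matrix.map_one _ (map_zero _) (map_one _)
  have hJJ' : Ji * J = 1 := mul_eq_one_comm.1 hJJ
  have h1 : gᵀ * J * g = J := by
    rw [hJ]
    exact hgA
  have h2 : g * Ji * gᵀ = Ji := by
    have h3 : (Ji * gᵀ * J) * g = 1 := by
      calc Ji * gᵀ * J * g = Ji * (gᵀ * J * g) := by simp only [mul_assoc]
        _ = 1 := by rw [h1, hJJ']
    have h4 : g * (Ji * gᵀ * J) = 1 := mul_eq_one_comm.1 h3
    calc g * Ji * gᵀ = g * Ji * gᵀ * (J * Ji) := by rw [hJJ, mul_one]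
      _ = (g * (Ji * gᵀ * J)) * Ji := by simp only [mul_assoc]
      _ = Ji := by rw [h4, one_mul]
  rw [← hJi] at hE
  obtain ⟨E', hE'⟩ : ∃ E', E' = E.map (algebraMap ℚ ℂ) := ⟨_, rfl⟩
  rw [← hE'] at hE ⊢
  have hPP : P * P⁻¹ = 1 := mul_nonsing_inv P hP
  have hPP' : P⁻¹ * P = 1 := nonsing_inv_mul P hP
  have hPt : (P⁻¹)ᵀ * Pᵀ = 1 := by rw [← transpose_mul, hPP, transpose_one]
  have hEe : E' = (P⁻¹)ᵀ * (Pᵀ * E' * P) * P⁻¹ := by
    calc E' = ((P⁻¹)ᵀ * Pᵀ) * E' * (P * P⁻¹) := by rw [hPt, hPP, one_mul, mul_one]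
      _ = _ := by simp only [mul_assoc]
  have e1 : (P * gᵀ * P⁻¹)ᵀ * E' * (P * gᵀ * P⁻¹) =
      (P⁻¹)ᵀ * (g * (Pᵀ * E' * P) * gᵀ) * P⁻¹ := by
    rw [transpose_mul, transpose_mul, transpose_transpose]
    simp only [mul_assoc]
  rw [e1, hE, mul_smul_comm, smul_mul_assoc, h2, ← hE]
  exact hEe.symm

/-! ### Density -/

/-- substitution of `A Mᵀ B` -/
noncomputable def pull (A B : Matrix d d ℂ) (f : MvPolynomial (d × d) ℂ) :
    MvPolynomial (d × d) ℂ :=
  MvPolynomial.aeval (fun p : d × d => ∑ j, ∑ i, MvPolynomial.C (A p.1 i * B j p.2) *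
    (MvPolynomial.X (j, i) : MvPolynomial (d × d) ℂ)) f

theorem pev_pull (A B M : Matrix d d ℂ) (f : MvPolynomial (d × d) ℂ) :
    pev M (pull A B f) = pev (A * Mᵀ * B) f := by
  have h : (MvPolynomial.aeval fun ij : d × d => M ij.1 ij.2).comp
      (MvPolynomial.aeval (fun p : d × d => ∑ j, ∑ i, MvPolynomial.C (A p.1 i * B j p.2) *
        (MvPolynomial.X (j, i) : MvPolynomial (d × d) ℂ))) =
      MvPolynomial.aeval (fun ij : d × d => (A * Mᵀ * B) ij.1 ij.2) := by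
    apply MvPolynomial.algHom_ext
    intro p
    rw [AlgHom.comp_apply, MvPolynomial.aeval_X, MvPolynomial.aeval_X, Matrix.mul_apply, map_sum]
    refine Finset.sum_congr rfl fun j _ => ?_
    rw [map_sum, Matrix.mul_apply, Finset.sum_mul]
    refine Finset.sum_congr rfl fun i _ => ?_
    rw [map_mul, MvPolynomial.aeval_C, MvPolynomial.aeval_X, Matrix.transpose_apply]
    change A p.1 i * B j p.2 * M j i = A p.1 i * M j i * B j p.2
    ring
  exact DFunLike.congr_fun h f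

theorem famF_dense (F : Fam d) {P : Matrix d d ℂ} (hP : IsUnit P.det) {E : Matrix d d ℚ}
    (hfl : Flat F P E) : SpDense ((famF F).Mo P) E := by
  intro G hG
  obtain ⟨g, hg, hgP⟩ := MT100G.H97.exists_g F hP hfl (G := G) hG
  have hGe : G = P * gᵀ * P⁻¹ := by rw [← hgP, mul_assoc, mul_nonsing_inv P hP, mul_one]
  refine ⟨?_, ?_⟩
  · obtain ⟨J, hJ⟩ : ∃ J, J = F.J0.map (algebraMap ℚ ℂ) := ⟨_, rfl⟩
    obtain ⟨Ji, hJi⟩ : ∃ Ji, Ji = (F.J0⁻¹).map (algebraMap ℚ ℂ) := ⟨_, rfl⟩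
    have hJJ : J * Ji = 1 := by
      rw [hJ, hJi, ← Matrix.map_mul, Matrix.mul_nonsing_inv _ F.unit]
      exact Matrix.map_one _ (map_zero _) (map_one _)
    have hJJ' : Ji * J = 1 := mul_eq_one_comm.1 hJJ
    have h1 : gᵀ * J * g = J := by
      rw [hJ]
      exact hg
    have h3 : (Ji * gᵀ * J) * g = 1 := by
      calc Ji * gᵀ * J * g = Ji * (gᵀ * J * g) := by simp only [mul_assoc]
        _ = 1 := by rw [h1, hJJ']
    have h4 : IsUnit g.det := Matrix.isUnit_det_of_left_inverse h3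
    rw [hGe, det_mul, det_mul, det_transpose]
    exact (hP.mul h4).mul (Matrix.isUnit_nonsing_inv_det P hP)
  · intro f hf
    rw [hGe, ← pev_pull]
    refine F.big (pull P P⁻¹ f) ?_ g hg
    intro g' hg'
    rw [pev_pull]
    exact hf _ ⟨g', by rw [famF_mo]; exact hg', rfl⟩

/-! ### The hypergeometric families -/

open Pool.Agent.MT100.H18 Pool.Agent.MT100G.H78 in
/-- the family, the rational structure and the form of a hypergeometric datum -/
theorem nvaP (D : Dat) :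
    ∃ (F : Fam (Fin D.r)) (n0 : ℕ), F.H = Hyp D ∧ F.N = Nsh D.r ∧
      Flat F (Pd D.r (2 * Real.pi)) (J0 D.r) ∧
      ∀ n : ℕ, n0 ≤ n → ∃ V : ℕ → Submodule ℂ (Fin D.r → ℂ),
        PolHodge (D.r - 1) (J0 D.r) V ∧
        MT100G.HasFil F (fun a => D.r - 1 - a) (Pd D.r (2 * Real.pi)) n V := by
  obtain ⟨F, hH, hN, hJ⟩ := exFam D
  have hκ : (0 : ℝ) < 2 * Real.pi := by positivity
  obtain ⟨n0, hn0⟩ := main_ex MT100G.H97.eva' MT100.H97.hgt' MT100.H97.ana' D (2 * Real.pi) hκ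
  obtain ⟨m0, hm0⟩ := exists_nat_gt (D.lam : ℝ)
  refine ⟨F, max n0 m0, hH, hN, ?_, ?_⟩
  · unfold Flat
    rw [hJ]
    exact pd_flat D hκ.ne'
  · intro n hn
    obtain ⟨V, hV, hP⟩ := hn0 n (le_trans (le_max_left _ _) hn)
    refine ⟨V, hV, ?_⟩
    have hlam : (D.lam : ℝ) < n :=
      lt_of_lt_of_le hm0 (by exact_mod_cast le_trans (le_max_right _ _) hn)
    have hper : ∀ a, perG F (Pd D.r (2 * Real.pi)) (n : ℂ) a =
        per D (Pd D.r (2 * Real.pi)) n a := by
      intro a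
      obtain ⟨K, q, B, hS⟩ := ex1A D
      have h1 := (ex2A D K q B hS).2 (n : ℝ) hlam
      rw [Complex.ofReal_natCast] at h1
      unfold perG per
      rw [hH, hN, h1]
      rfl
    have hr := D.r_pos
    intro p
    rcases Nat.lt_or_ge (D.r - 1) p with hp | hp
    · have h1 : (⨆ p' ∈ Set.Ici p, V p') = ⊥ := by
        rw [iSup₂_eq_bot]
        intro p' hp'
        exact hV.top p' (lt_of_lt_of_le hp hp')
      rw [h1, eq_comm, Submodule.span_eq_bot]
      rintro y ⟨a, ha, -⟩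
      have h4 : p ≤ D.r - 1 - (a : ℕ) := ha
      omega
    · have h1 := hP ⟨D.r - 1 - p, by omega⟩
      have h2 : (⨆ p' ∈ Set.Ici p, V p') =
          ⨆ p' ∈ Set.Icc (D.r - 1 - (D.r - 1 - p)) (D.r - 1), V p' := by
        apply le_antisymm
        · apply iSup₂_le
          intro p' hp'
          rcases Nat.lt_or_ge (D.r - 1) p' with h3 | h3
          · rw [hV.top p' h3]
            exact bot_le
          · exact le_iSup₂_of_le p' ⟨by have : p ≤ p' := hp'; omega, h3⟩ le_rfl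
        · apply iSup₂_le
          intro p' hp'
          exact le_iSup₂_of_le p' (by have := hp'.1; show p ≤ p'; omega) le_rfl
      rw [h2]
      rw [h1]
      congr 1
      ext y
      constructor
      · rintro ⟨b, hb, rfl⟩
        refine ⟨b, ?_, (hper b).symm⟩
        have h4 : (b : ℕ) ≤ D.r - 1 - p := hb
        show p ≤ D.r - 1 - (b : ℕ)
        omega
      · rintro ⟨b, hb, rfl⟩
        refine ⟨b, ?_, hper b⟩
        have h3 := b.2
        have h4 : p ≤ D.r - 1 - (b : ℕ) := hb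
        show (b : ℕ) ≤ D.r - 1 - p
        omega

/-- every hypergeometric datum of rank at least six satisfies the hypotheses, with one constant
`c = 2 π i` -/
theorem nva (D : Dat) (hD : 3 ≤ D.s) :
    ∃ (F : Family (Fin D.r)) (P : Matrix (Fin D.r) (Fin D.r) ℂ)
      (E : Matrix (Fin D.r) (Fin D.r) ℚ) (n0 : ℕ),
      F.H = Hyp D ∧ F.N = Nsh D.r ∧ (∀ a, F.δ a = 0) ∧ IsUnit P.det ∧
      (∀ i j, IsAlgebraic (IntermediateField.adjoin ℚ
        (Set.range fun _ : Fin 1 => 2 * Real.pi * Complex.I)) (1 * P i j)) ∧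
      (∀ p, Fintype.card {a : Fin D.r // D.r - 1 - (a : ℕ) = p} ≤ 1) ∧
      1 + (if F.N = 0 then 0 else 1) + 1 + 1 < Fintype.card (Fin D.r) ∧ Odd (D.r - 1) ∧
      SpDense (F.Mo P) E ∧
      ∀ n : ℕ, n0 ≤ n → ∃ V : ℕ → Submodule ℂ (Fin D.r → ℂ),
        F.Fibre (fun a => D.r - 1 - a) P (D.r - 1) n E V := by
  obtain ⟨F, n0, hH, hN, hfl, hV⟩ := nvaP D
  have hκ : (0 : ℝ) < 2 * Real.pi := by positivity
  have hP : IsUnit (MT100.H18.Pd D.r (2 * Real.pi)).det := MT100.H18.Pd_det _ _ hκ.ne'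
  have hr : D.r = 2 * D.s := rfl
  refine ⟨famF F, MT100.H18.Pd D.r (2 * Real.pi), J0 D.r, n0, hH, hN, fun _ => rfl, hP, ?_, ?_, ?_,
    ?_, famF_dense F hP hfl, ?_⟩
  · intro i j
    rw [one_mul]
    obtain ⟨k, hk⟩ : ∃ k : IntermediateField ℚ ℂ, k = IntermediateField.adjoin ℚ
        (Set.range fun _ : Fin 1 => (2 * Real.pi * Complex.I : ℂ)) := ⟨_, rfl⟩
    have hc : (2 * Real.pi * Complex.I : ℂ) ∈ k := by
      rw [hk]
      exact IntermediateField.subset_adjoin _ _ ⟨0, rfl⟩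
    have hm : MT100.H18.Pd D.r (2 * Real.pi) i j ∈ k := by
      unfold MT100.H18.Pd
      rw [Matrix.diagonal_apply]
      split_ifs with hij
      · apply inv_mem
        apply pow_mem
        have e : (((2 * Real.pi : ℝ) : ℂ) * Complex.I) = (2 * Real.pi * Complex.I : ℂ) := by
          push_cast
          ring
        rw [e]
        exact hc
      · exact zero_mem k
    rw [← hk]
    exact isAlgebraic_algebraMap (⟨_, hm⟩ : k)
  · intro p
    rw [Fintype.card_le_one_iff_subsingleton]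
    refine ⟨fun a b => ?_⟩
    obtain ⟨⟨a, ha⟩, ha'⟩ := a
    obtain ⟨⟨b, hb⟩, hb'⟩ := b
    have h1 : D.r - 1 - a = p := ha'
    have h2 : D.r - 1 - b = p := hb'
    apply Subtype.ext
    apply Fin.ext
    show a = b
    omega
  · rw [Fintype.card_fin]
    split_ifs <;> omega
  · exact ⟨D.s - 1, by omega⟩
  · intro n hn
    obtain ⟨V, hV1, hV2⟩ := hV n hn
    exact ⟨V, hV1, famF_inv F hP hfl, famF_fil F _ _ _ V hV2⟩

end Pool.Agent.MTF.H20
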